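import Pool.Agent.Work.MP_157c12_gt.AN.Final

/-!
# Compact algebraic hypersurfaces of finite type in all dimensions

Let `n ≥ 2`, `M` a compact connected smooth `n`-manifold, `x : M → E (n + 1)` a smooth immersion of
finite type whose image lies in the zero set of a non-zero real polynomial `F`. Suppose that every
complex irreducible factor `R` of the leading form of `F` which divides the square of its gradient
is proportional to the sum of the squares of the variables. Then `x(M)` is a round sphere.
-/

open scoped Manifold ContDiff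
open Pool.Agent.Work.MP_157c12_gt MvPolynomial

theorem Pool.Agent.Results.MP_157c12_gt.AlgebraicHypersurfaces.result
    (n : ℕ) (hn : 2 ≤ n)
    (M : Type) [TopologicalSpace M] [ChartedSpace (E n) M] [IsManifold 𝓘(ℝ, E n) ∞ M]
    [CompactSpace M] [ConnectedSpace M]
    (x : M → E (n + 1)) (hx : SmoothImmersion (V := E n) x) (hft : FiniteType (n := n) x)
    (F : MvPolynomial (Fin (n + 1)) ℝ) (hF : F ≠ 0) (hz : ∀ p, eval (fun a => x p a) F = 0)
    (hR : ∀ R : MvPolynomial (Fin (n + 1)) ℂ, Irreducible R →
      R ∣ map (algebraMap ℝ ℂ) (homogeneousComponent F.totalDegree F) →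
      R ∣ ∑ a, pderiv a R ^ 2 → ∃ c : ℂ, R = C c * ∑ a, X a ^ 2) :
    ∃ (c : E (n + 1)) (r : ℝ), 0 < r ∧ Set.range x = Metric.sphere c r :=
  AN.pFIN n M x F hn hx hft hF hz hR
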