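import Pool.Agent.Work.MP_157c12_gt.Final

/-!
# Compact algebraic surfaces of finite type are round spheres

Let `M` be a compact connected smooth surface and `x : M → E 3` a smooth immersion of finite type
whose image lies in the zero set of a non-zero real polynomial in three variables. Then `x(M)` is
a round sphere.
-/

open scoped Manifold ContDiff
open Pool.Agent.Work.MP_157c12_gt

theorem Pool.Agent.Results.MP_157c12_gt.AlgebraicSurfaces.result
    (M : Type) [TopologicalSpace M] [ChartedSpace (E 2) M] [IsManifold 𝓘(ℝ, E 2) ∞ M]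
    [CompactSpace M] [ConnectedSpace M]
    (x : M → E 3) (hx : SmoothImmersion (V := E 2) x) (hft : FiniteType (n := 2) x)
    (halg : ∃ P : MvPolynomial (Fin 3) ℝ, P ≠ 0 ∧
      ∀ p, MvPolynomial.eval (fun a => x p a) P = 0) :
    ∃ (c : E 3) (r : ℝ), 0 < r ∧ Set.range x = Metric.sphere c r :=
  pGMain M x hx.1 hx.2 hft halg
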