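import Pool.Agent.Work.MP_157c12_gt.Rot.Final
import Pool.Agent.Work.MP_157c12_gt.Rot.RotInv

/-!
# Compact rotational hypersurfaces of finite type are round spheres

Let `n ≥ 2`, `M` a compact connected smooth `n`-manifold and `x : M → E (n + 1)` a smooth immersion
of finite type whose image is mapped into itself by all rotations about a line. Then `x(M)` is a
round sphere.
-/

open scoped Manifold ContDiff
open Pool.Agent.Work.MP_157c12_gt

theorem Pool.Agent.Results.MP_157c12_gt.RotationalHypersurfaces.result
    (n : ℕ) (hn : 2 ≤ n)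
    (M : Type) [TopologicalSpace M] [ChartedSpace (E n) M] [IsManifold 𝓘(ℝ, E n) ∞ M]
    [CompactSpace M] [ConnectedSpace M]
    (x : M → E (n + 1)) (hx : SmoothImmersion (V := E n) x) (hft : FiniteType (n := n) x)
    (o e : E (n + 1)) (he : e ≠ 0) (hrot : RotInv o e (Set.range x)) :
    ∃ (c : E (n + 1)) (r : ℝ), 0 < r ∧ Set.range x = Metric.sphere c r :=
  Rot.pMM n M x hn hx hft o e he (fun A h1 h2 p => hrot A h1 h2 (x p) ⟨p, rfl⟩)
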