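import Pool.Agent.Work.MP_157c12_gt.TT.Final

/-!
# Surfaces of 2-type in Euclidean 3-space

Let `M` be a connected smooth surface and `x : M → E 3` a smooth immersion of 2-type. Then one of
the two eigenvalues is zero and `x(M)` lies in a circular cylinder. In particular `M` is not
compact.
-/

open scoped Manifold ContDiff RealInnerProductSpace
open Pool.Agent.Work.MP_157c12_gt

theorem Pool.Agent.Results.MP_157c12_gt.TwoTypeSurfaces.result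
    (M : Type) [TopologicalSpace M] [ChartedSpace (E 2) M] [IsManifold 𝓘(ℝ, E 2) ∞ M]
    [ConnectedSpace M]
    (x : M → E 3) (hx : SmoothImmersion (V := E 2) x)
    (c : E 3) (x₁ x₂ : M → E 3) (l₁ l₂ : ℝ)
    (h₁ : ContMDiff 𝓘(ℝ, E 2) 𝓘(ℝ, E 3) ∞ x₁) (h₂ : ContMDiff 𝓘(ℝ, E 2) 𝓘(ℝ, E 3) ∞ x₂)
    (n₁ : ∃ p q, x₁ p ≠ x₁ q) (n₂ : ∃ p q, x₂ p ≠ x₂ q) (hl : l₁ ≠ l₂)
    (hs : ∀ p, x p = c + x₁ p + x₂ p)
    (e₁ : ∀ i, LapEq (n := 2) x (fun p => x₁ p i) l₁)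
    (e₂ : ∀ i, LapEq (n := 2) x (fun p => x₂ p i) l₂) :
    (l₁ = 0 ∨ l₂ = 0) ∧
      (∃ (z e : E 3) (R : ℝ), ‖e‖ = 1 ∧ 0 < R ∧ ∀ p, ‖(x p - z) - ⟪e, x p - z⟫ • e‖ = R) ∧
      ¬ CompactSpace M := by
  obtain ⟨h0, hc⟩ := TT.pSMain M x hx c x₁ x₂ l₁ l₂ h₁ h₂ n₁ n₂ hl hs e₁ e₂
  refine ⟨h0, ?_, hc⟩
  rcases h0 with h0 | h0
  · subst h0
    exact TT.pNull M x hx c x₁ x₂ l₂ h₁ h₂ n₁ n₂ (Ne.symm hl) hs e₁ e₂
  · subst h0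
    refine TT.pNull M x hx c x₂ x₁ l₁ h₂ h₁ n₂ n₁ hl (fun p => ?_) e₂ e₁
    rw [hs p]
    abel
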